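import Pool.Agent.K3h49.TF.Schur

/-!
Brick FAC of the project TRACE (owner helper73): the von Neumann algebra generated by the left
translations of the free group of rank two is a factor of type II₁.
-/

set_option autoImplicit false

namespace Pool.Agent.K3h49.TF

open scoped InnerProductSpace ComplexConjugate Topology
open Pool.Agent.K3h73.TF FreeGroup Filter

/-- nontrivial elements of the free group have infinitely many conjugates -/
theorem icc (h : G) (hh : h ≠ 1) :
    ∃ s : ℕ → G, Function.Injective (fun n => s n * h * (s n)⁻¹) := by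
  have hL : h.toWord ≠ [] := by simpa using hh
  have hex : ∀ a z : Bool × Bool, ∃ s : Bool × Bool,
      (s.1 = a.1 → s.2 = a.2) ∧ (z.1 = s.1 → z.2 = !s.2) := by decide
  obtain ⟨s, hs1, hs2⟩ := hex (h.toWord.head hL) (h.toWord.getLast hL)
  have hred : ∀ n, FreeGroup.IsReduced
      (List.replicate n s ++ h.toWord ++ List.replicate n (s.1, !s.2)) := by
    intro n
    have hrep : ∀ (m : ℕ) (t : Bool × Bool),
        List.IsChain (fun a b : Bool × Bool => a.1 = b.1 → a.2 = b.2) (List.replicate m t) :=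
      fun m t => List.isChain_replicate_of_rel _ (fun _ => rfl)
    rw [FreeGroup.IsReduced, List.isChain_append, List.isChain_append]
    refine ⟨⟨hrep n s, isReduced_toWord, ?_⟩, hrep n _, ?_⟩
    · intro x hx y hy
      have hx' : x = s := List.eq_of_mem_replicate (List.mem_of_mem_getLast? hx)
      have hy' : y = h.toWord.head hL := by
        rw [List.head?_eq_some_head hL] at hy
        simpa using hy.symm
      rw [hx', hy']; exact hs1
    · intro x hx y hy
      have hy' : y = (s.1, !s.2) := List.eq_of_mem_replicate (List.mem_of_mem_head? hy)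
      have hx' : x = h.toWord.getLast hL := by
        rw [List.getLast?_append_of_ne_nil _ hL, List.getLast?_eq_some_getLast hL] at hx
        simpa using hx.symm
      rw [hx', hy']; exact hs2
  refine ⟨fun n => mk (List.replicate n s), ?_⟩
  have hlen : ∀ n, FreeGroup.norm (mk (List.replicate n s) * h * (mk (List.replicate n s))⁻¹ : G)
      = n + h.toWord.length + n := by
    intro n
    have e1 : (mk (List.replicate n s) * h * (mk (List.replicate n s))⁻¹ : G)
        = mk (List.replicate n s ++ h.toWord ++ List.replicate n (s.1, !s.2)) := by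
      rw [inv_mk]
      conv_lhs => rw [← mk_toWord (x := h)]
      rw [mul_mk, mul_mk]
      congr 2
      simp [invRev]
    rw [e1, FreeGroup.norm, toWord_mk, (hred n).reduce_eq]
    simp [add_assoc]
  intro n m hnm
  have : FreeGroup.norm (mk (List.replicate n s) * h * (mk (List.replicate n s))⁻¹ : G)
    = FreeGroup.norm (mk (List.replicate m s) * h * (mk (List.replicate m s))⁻¹ : G) :=
    congrArg FreeGroup.norm hnm
  rw [hlen, hlen] at this
  omega

section fac
variable {H : Type} [NormedAddCommGroup H] [InnerProductSpace ℂ H] [CompleteSpace H]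
  (b : HilbertBasis G ℂ H)

theorem ext_basis {T S : H →L[ℂ] H} (h : ∀ g, T (b g) = S (b g)) : T = S := by
  apply ContinuousLinearMap.ext_on (s := Set.range b)
  · rw [Submodule.dense_iff_topologicalClosure_eq_top]
    exact b.dense_span
  · rintro _ ⟨g, rfl⟩
    exact h g

theorem vec_ext {v w : H} (h : ∀ g, ⟪b g, v⟫_ℂ = ⟪b g, w⟫_ℂ) : v = w := by
  apply b.repr.injective
  ext g
  rw [b.repr_apply_apply, b.repr_apply_apply, h]

theorem inner_b (g h : G) : ⟪b g, b h⟫_ℂ = if g = h then 1 else 0 :=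
  orthonormal_iff_ite.1 b.orthonormal g h

theorem star_perm (σ : Equiv.Perm G) {T : H →L[ℂ] H} (hT : ∀ g, T (b g) = b (σ g)) (g : G) :
    star T (b g) = b (σ.symm g) := by
  apply vec_ext b
  intro k
  rw [ContinuousLinearMap.star_eq_adjoint, ContinuousLinearMap.adjoint_inner_right, hT, inner_b,
    inner_b]
  have : σ k = g ↔ k = σ.symm g := by rw [Equiv.eq_symm_apply]
  simp only [this]

/-- right multiplications exist -/
theorem exR (h : G) : ∃ T : H →L[ℂ] H, ∀ k, T (b k) = b (k * h) := by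
  let v : G → H := fun k => b (k * h)
  have hv : Orthonormal ℂ v := b.orthonormal.comp _ (mul_left_injective h)
  have hr : Set.range v = Set.range b := by
    ext x
    constructor
    · rintro ⟨k, rfl⟩; exact ⟨k * h, rfl⟩
    · rintro ⟨k, rfl⟩; exact ⟨k * h⁻¹, by simp [v]⟩
  have hsp : ⊤ ≤ (Submodule.span ℂ (Set.range v)).topologicalClosure := by
    rw [hr, b.dense_span]
  let b' := HilbertBasis.mk hv hsp
  refine ⟨((b.repr.trans b'.repr.symm : H ≃ₗᵢ[ℂ] H) : H →L[ℂ] H), ?_⟩
  intro k
  classical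
  show b'.repr.symm (b.repr (b k)) = b (k * h)
  rw [b.repr_self, b'.repr_symm_single]
  exact congrFun (HilbertBasis.coe_mk hv hsp) k

/-- commuting with all right multiplications -/
def RC (x : H →L[ℂ] H) : Prop :=
  ∀ (T : H →L[ℂ] H) (h : G), (∀ k, T (b k) = b (k * h)) → x * T = T * x

variable {b}

theorem coef {x : H →L[ℂ] H} (hx : RC b x) (k h : G) :
    ⟪b k, x (b h)⟫_ℂ = ⟪b (k * h⁻¹), x (b 1)⟫_ℂ := by
  obtain ⟨T, hT⟩ := exR b h
  have e1 : x (b h) = T (x (b 1)) := by
    have := congrArg (fun S : H →L[ℂ] H => S (b 1)) (hx T h hT)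
    simpa [hT] using this
  have e2 : star T (b k) = b (k * h⁻¹) := by
    have := star_perm b (Equiv.mulRight h) (T := T) (fun g => by rw [hT]; rfl) k
    rw [this]
    simp
  rw [e1, ← e2, ContinuousLinearMap.star_eq_adjoint, ContinuousLinearMap.adjoint_inner_left]

theorem zero_of {x : H →L[ℂ] H} (hx : RC b x) (h : x (b 1) = 0) : x = 0 := by
  apply ext_basis b
  intro g
  apply vec_ext b
  intro k
  rw [coef hx, h, inner_zero_right]
  simp

theorem RC.mul {x y : H →L[ℂ] H} (hx : RC b x) (hy : RC b y) : RC b (x * y) := by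
  intro T h hT
  rw [mul_assoc, hy T h hT, ← mul_assoc, hx T h hT, mul_assoc]

theorem RC.adj {x : H →L[ℂ] H} (hx : RC b x) : RC b (star x) := by
  intro T h hT
  have hT' : ∀ k, (star T) (b k) = b (k * h⁻¹) := by
    intro k
    have := star_perm b (Equiv.mulRight h) (T := T) (fun g => by rw [hT]; rfl) k
    rw [this]
    simp
  have := hx (Star.star T) h⁻¹ hT'
  have := congrArg Star.star this
  rw [star_mul, star_mul, star_star] at this
  exact this.symm

theorem RC.sub {x y : H →L[ℂ] H} (hx : RC b x) (hy : RC b y) : RC b (x - y) := by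
  intro T h hT
  rw [sub_mul, mul_sub, hx T h hT, hy T h hT]

theorem RC.one : RC b 1 := by
  intro T h hT
  rw [one_mul, mul_one]

theorem trace_comm {x y : H →L[ℂ] H} (hx : RC b x) (hy : RC b y) :
    ⟪b 1, x (y (b 1))⟫_ℂ = ⟪b 1, y (x (b 1))⟫_ℂ := by
  have key : ∀ {x y : H →L[ℂ] H}, RC b x → RC b y →
      ⟪b 1, x (y (b 1))⟫_ℂ = ∑' g, ⟪b g⁻¹, x (b 1)⟫_ℂ * ⟪b g, y (b 1)⟫_ℂ := by
    intro x y hx hy
    rw [← ContinuousLinearMap.adjoint_inner_left, ← b.tsum_inner_mul_inner]
    apply tsum_congr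
    intro g
    rw [ContinuousLinearMap.adjoint_inner_left, coef hx 1 g, one_mul]
  rw [key hx hy, key hy hx, ← (Equiv.inv G).tsum_eq]
  apply tsum_congr
  intro g
  simp only [Equiv.inv_apply, inv_inv]
  ring

end fac

section main
variable {H : Type} [NormedAddCommGroup H] [InnerProductSpace ℂ H] [CompleteSpace H]
  {b : HilbertBasis G ℂ H} {lam : G → H →L[ℂ] H}

theorem lam_star (hl : ∀ g h, lam g (b h) = b (g * h)) (g : G) : star (lam g) = lam g⁻¹ := by
  apply ext_basis b
  intro k
  rw [star_perm b (Equiv.mulLeft g) (fun h => by rw [hl]; rfl) k, hl]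
  simp

theorem lam_mul (hl : ∀ g h, lam g (b h) = b (g * h)) (g h : G) :
    lam g * lam h = lam (g * h) := by
  apply ext_basis b
  intro k
  rw [mul_apply_eq_comp, hl, hl, hl, mul_assoc]

theorem lam_RC (hl : ∀ g h, lam g (b h) = b (g * h)) (g : G) : RC b (lam g) := by
  intro T h hT
  apply ext_basis b
  intro k
  rw [mul_apply_eq_comp, mul_apply_eq_comp, hl, hT, hT, hl, mul_assoc]

theorem T_mem (hl : ∀ g h, lam g (b h) = b (g * h)) {T : H →L[ℂ] H} {h : G}
    (hT : ∀ k, T (b k) = b (k * h)) : T ∈ Set.centralizer (Set.range lam) := by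
  rw [Set.mem_centralizer_iff]
  rintro _ ⟨g, rfl⟩
  exact lam_RC hl g T h hT

theorem RC_of_mem (hl : ∀ g h, lam g (b h) = b (g * h)) {x : H →L[ℂ] H}
    (hx : x ∈ Set.centralizer (Set.centralizer (Set.range lam))) : RC b x := by
  intro T h hT
  rw [Set.mem_centralizer_iff] at hx
  exact (hx T (T_mem hl hT)).symm

theorem star_range (hl : ∀ g h, lam g (b h) = b (g * h)) :
    ∀ a ∈ Set.range lam, star a ∈ Set.range lam := by
  rintro _ ⟨g, rfl⟩
  exact ⟨g⁻¹, (lam_star hl g).symm⟩

theorem star_cent (hl : ∀ g h, lam g (b h) = b (g * h)) :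
    ∀ a ∈ Set.centralizer (Set.range lam), star a ∈ Set.centralizer (Set.range lam) :=
  fun _ ha => Set.star_mem_centralizer' (star_range hl) ha

/-- a projection in the algebra with `⟪b 1, q (b 1)⟫ = 0` vanishes -/
theorem proj_zero {q : H →L[ℂ] H} (hq : RC b q) (h1 : star q = q) (h2 : q * q = q)
    (h3 : ⟪b 1, q (b 1)⟫_ℂ = 0) : q = 0 := by
  apply zero_of hq
  have : ⟪q (b 1), q (b 1)⟫_ℂ = 0 := by
    rw [sa_inner h1]
    have := congrArg (fun S : H →L[ℂ] H => S (b 1)) h2
    simp only [mul_apply_eq_comp] at this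
    rw [this, h3]
  simpa using this

theorem fac_factor (hl : ∀ g h, lam g (b h) = b (g * h)) (x : H →L[ℂ] H)
    (hx : x ∈ Set.centralizer (Set.centralizer (Set.range lam)))
    (hx' : x ∈ Set.centralizer (Set.centralizer (Set.centralizer (Set.range lam)))) :
    ∃ c : ℂ, x = c • (1 : H →L[ℂ] H) := by
  have hR := RC_of_mem hl hx
  rw [Set.centralizer_centralizer_centralizer, Set.mem_centralizer_iff] at hx'
  have hL : ∀ g, lam g * x = x * lam g := fun g => hx' _ ⟨g, rfl⟩
  have hconj : ∀ g h : G, ⟪b (g * h * g⁻¹), x (b 1)⟫_ℂ = ⟪b h, x (b 1)⟫_ℂ := by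
    intro g h
    have e1 : ⟪b (g * h * g⁻¹), x (b 1)⟫_ℂ = ⟪b (g * h), x (b g)⟫_ℂ := by rw [coef hR (g * h) g]
    have e2 : x (b g) = lam g (x (b 1)) := by
      have := congrArg (fun S : H →L[ℂ] H => S (b 1)) (hL g)
      simp only [mul_apply_eq_comp, hl, mul_one] at this
      exact this.symm
    have e3 : star (lam g) (b (g * h)) = b h := by
      rw [lam_star hl, hl]; simp
    rw [e1, e2, ← ContinuousLinearMap.adjoint_inner_left, ← ContinuousLinearMap.star_eq_adjoint, e3]
  have hzero : ∀ h : G, h ≠ 1 → ⟪b h, x (b 1)⟫_ℂ = 0 := by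
    intro h hh
    obtain ⟨s, hs⟩ := icc h hh
    have hsum : Summable (fun g : G => ‖⟪b g, x (b 1)⟫_ℂ‖ ^ 2) :=
      b.orthonormal.inner_products_summable _
    have ht := hsum.tendsto_cofinite_zero.comp (hs.tendsto_cofinite)
    rw [Nat.cofinite_eq_atTop] at ht
    have hc : ((fun g : G => ‖⟪b g, x (b 1)⟫_ℂ‖ ^ 2) ∘ fun n => s n * h * (s n)⁻¹)
        = fun _ : ℕ => ‖⟪b h, x (b 1)⟫_ℂ‖ ^ 2 := by
      ext n
      simp only [Function.comp, hconj]
    rw [hc] at ht
    have := tendsto_nhds_unique ht tendsto_const_nhds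
    have h0 : ‖⟪b h, x (b 1)⟫_ℂ‖ ^ 2 = 0 := this.symm
    simpa using h0
  refine ⟨⟪b 1, x (b 1)⟫_ℂ, ?_⟩
  apply ext_basis b
  intro g
  apply vec_ext b
  intro k
  rw [coef hR, smul_apply, one_apply_eq_self, inner_smul_right, inner_b]
  by_cases hk : k = g
  · subst hk; simp
  · rw [hzero _ (by rwa [Ne, mul_inv_eq_one]), if_neg hk, mul_zero]

theorem fac_finite (v : H →L[ℂ] H) (hR : RC b v) (hv : star v * v = 1) : v * star v = 1 := by
  have hq : RC b (1 - v * star v) := RC.one.sub (hR.mul hR.adj)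
  have h1 : star (1 - v * star v) = 1 - v * star v := by
    rw [star_sub, star_one, star_mul, star_star]
  have h2 : (1 - v * star v) * (1 - v * star v) = 1 - v * star v := by
    have : v * star v * (v * star v) = v * star v := by
      rw [mul_assoc, ← mul_assoc (star v), hv, one_mul]
    rw [mul_sub, mul_one, sub_mul, one_mul, this]
    abel
  have h3 : ⟪b 1, (1 - v * star v) (b 1)⟫_ℂ = 0 := by
    rw [sub_apply, one_apply_eq_self, inner_sub_right, mul_apply_eq_comp,
      trace_comm hR hR.adj]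
    have := congrArg (fun S : H →L[ℂ] H => S (b 1)) hv
    simp only [mul_apply_eq_comp, one_apply_eq_self] at this
    rw [this, sub_self]
  have := proj_zero hq h1 h2 h3
  rw [sub_eq_zero] at this
  exact this.symm

theorem fac_min (hl : ∀ g h, lam g (b h) = b (g * h)) (p : H →L[ℂ] H)
    (hp : p ∈ Set.centralizer (Set.centralizer (Set.range lam))) (hpp : IsStarProjection p)
    (hp0 : p ≠ 0) :
    ∃ q ∈ Set.centralizer (Set.centralizer (Set.range lam)),
      IsStarProjection q ∧ q ≠ 0 ∧ q ≠ p ∧ p * q = q := by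
  by_contra hcon
  push Not at hcon
  have hR := RC_of_mem hl hp
  have hsa : star p = p := hpp.isSelfAdjoint
  have hid : p * p = p := hpp.isIdempotentElem
  have hpS : ∀ s ∈ Set.centralizer (Set.range lam), p * s = s * p := by
    intro s hs
    rw [Set.mem_centralizer_iff] at hp
    exact (hp s hs).symm
  have hlS : ∀ g, ∀ s ∈ Set.centralizer (Set.range lam), lam g * s = s * lam g := by
    intro g s hs
    rw [Set.mem_centralizer_iff] at hs
    exact hs _ ⟨g, rfl⟩
  have hsch : ∀ g, ∃ c : ℂ, p * lam g * p = c • p := by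
    intro g
    apply t_schur H (Set.centralizer (Set.range lam)) p (star_cent hl) hsa hid hpS
    · intro L hLc hLP hLS
      haveI : CompleteSpace L := hLc.completeSpace_coe
      have hq : L.starProjection ∈ Set.centralizer (Set.centralizer (Set.range lam)) := by
        rw [Set.mem_centralizer_iff]
        intro s hs
        ext v
        rw [mul_apply_eq_comp, mul_apply_eq_comp]
        symm
        apply Submodule.eq_starProjection_of_mem_orthogonal
        · exact hLS s hs _ (Submodule.starProjection_apply_mem L v)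
        · rw [← map_sub, Submodule.mem_orthogonal]
          intro w hw
          rw [← ContinuousLinearMap.adjoint_inner_left, ← ContinuousLinearMap.star_eq_adjoint]
          have h1 : star s w ∈ L := hLS _ (star_cent hl s hs) w hw
          have h2 : v - L.starProjection v ∈ Lᗮ := Submodule.sub_starProjection_mem_orthogonal v
          exact (Submodule.mem_orthogonal _ _).1 h2 _ h1
      have hpq : p * L.starProjection = L.starProjection := by
        ext v
        rw [mul_apply_eq_comp]
        exact hLP _ (Submodule.starProjection_apply_mem L v)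
      by_cases h0 : L.starProjection = 0
      · left
        rw [Submodule.eq_bot_iff]
        intro v hv
        have : L.starProjection v = v := Submodule.starProjection_eq_self_iff.2 hv
        rw [h0] at this
        simpa using this.symm
      · right
        have hqp : L.starProjection = p := by
          by_contra hne
          exact hcon _ hq isStarProjection_starProjection h0 hne hpq
        intro v
        rw [← hqp]
        exact Submodule.starProjection_apply_mem L v
    · intro s hs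
      calc p * lam g * p * s = p * lam g * (p * s) := by rw [mul_assoc]
        _ = p * (lam g * s) * p := by rw [hpS s hs]; simp only [mul_assoc]
        _ = (p * s) * lam g * p := by rw [hlS g s hs]; simp only [mul_assoc]
        _ = s * (p * lam g * p) := by rw [hpS s hs]; simp only [mul_assoc]
    · calc p * (p * lam g * p) * p = (p * p) * lam g * (p * p) := by simp only [mul_assoc]
        _ = p * lam g * p := by rw [hid]
  choose κ hκ using hsch
  -- the trace of `p`
  have hpp1 : ∀ v, p (p v) = p v := fun v => by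
    have := congrArg (fun S : H →L[ℂ] H => S v) hid
    simpa using this
  set t : ℝ := ‖p (b 1)‖ ^ 2 with ht
  have htC : ⟪b 1, p (b 1)⟫_ℂ = (t : ℂ) := by
    rw [← hpp1 (b 1), ← sa_inner hsa, inner_self_eq_norm_sq_to_K, ht]
    push_cast
    rfl
  have ht0 : 0 < t := by
    have : p (b 1) ≠ 0 := fun h => hp0 (zero_of hR h)
    positivity
  -- `κ`
  have hκt : ∀ k, κ k * t = conj ⟪b k, p (b 1)⟫_ℂ := by
    intro k
    have e1 : κ k * t = ⟪b 1, p ((lam k * p) (b 1))⟫_ℂ := by
      have := congrArg (fun S : H →L[ℂ] H => ⟪b 1, S (b 1)⟫_ℂ) (hκ k)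
      simp only [mul_apply_eq_comp, smul_apply, inner_smul_right, htC] at this
      rw [mul_apply_eq_comp]
      exact this.symm
    rw [e1, trace_comm hR ((lam_RC hl k).mul hR), mul_apply_eq_comp, hpp1]
    rw [← ContinuousLinearMap.adjoint_inner_left, ← ContinuousLinearMap.star_eq_adjoint,
      lam_star hl, hl, mul_one, ← sa_inner hsa, ← inner_conj_symm, coef hR]
    simp
  let w : G → H := fun g => lam g (p (b g⁻¹))
  have hw1 : ∀ g, ⟪b 1, w g⟫_ℂ = (t : ℂ) := by
    intro g
    show ⟪b 1, lam g (p (b g⁻¹))⟫_ℂ = (t : ℂ)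
    rw [← ContinuousLinearMap.adjoint_inner_left, ← ContinuousLinearMap.star_eq_adjoint,
      lam_star hl, hl, mul_one, coef hR]
    simp [htC]
  have hww : ∀ g h, ⟪w g, w h⟫_ℂ * t = ((‖⟪b (g⁻¹ * h), p (b 1)⟫_ℂ‖ ^ 2 : ℝ) : ℂ) := by
    intro g h
    show ⟪lam g (p (b g⁻¹)), lam h (p (b h⁻¹))⟫_ℂ * t = _
    have e1 : ⟪lam g (p (b g⁻¹)), lam h (p (b h⁻¹))⟫_ℂ
        = ⟪b g⁻¹, (p * lam (g⁻¹ * h) * p) (b h⁻¹)⟫_ℂ := by
      rw [← ContinuousLinearMap.adjoint_inner_right, ← ContinuousLinearMap.star_eq_adjoint,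
        lam_star hl, sa_inner hsa, ← lam_mul hl]
      rfl
    rw [e1, hκ, smul_apply, inner_smul_right, coef hR, inv_inv]
    calc κ (g⁻¹ * h) * ⟪b (g⁻¹ * h), p (b 1)⟫_ℂ * t
        = (κ (g⁻¹ * h) * t) * ⟪b (g⁻¹ * h), p (b 1)⟫_ℂ := by ring
      _ = conj ⟪b (g⁻¹ * h), p (b 1)⟫_ℂ * ⟪b (g⁻¹ * h), p (b 1)⟫_ℂ := by rw [hκt]
      _ = _ := by rw [← Complex.normSq_eq_conj_mul_self, Complex.normSq_eq_norm_sq]
  have hsum : Summable (fun g : G => ‖⟪b g, p (b 1)⟫_ℂ‖ ^ 2) :=
    b.orthonormal.inner_products_summable _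
  have htsum : ∑' g : G, ‖⟪b g, p (b 1)⟫_ℂ‖ ^ 2 ≤ t := b.orthonormal.tsum_inner_products_le _
  have hF : ∀ F : Finset G, (F.card : ℝ) ^ 2 * t ^ 2 ≤ F.card := by
    intro F
    have e1 : ⟪b 1, ∑ g ∈ F, w g⟫_ℂ = (F.card : ℂ) * t := by
      rw [inner_sum, Finset.sum_congr rfl (fun g _ => hw1 g), Finset.sum_const, nsmul_eq_mul]
    have e2 : (F.card : ℝ) * t ≤ ‖∑ g ∈ F, w g‖ := by
      calc (F.card : ℝ) * t = ‖⟪b 1, ∑ g ∈ F, w g⟫_ℂ‖ := by
            rw [e1, ← Complex.ofReal_natCast, ← Complex.ofReal_mul, Complex.norm_real,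
              Real.norm_of_nonneg (by positivity)]
        _ ≤ ‖b 1‖ * ‖∑ g ∈ F, w g‖ := norm_inner_le_norm _ _
        _ = ‖∑ g ∈ F, w g‖ := by rw [b.orthonormal.1 1, one_mul]
    have e3 : ‖∑ g ∈ F, w g‖ ^ 2 * t ≤ F.card * t := by
      have e4 : ((‖∑ g ∈ F, w g‖ ^ 2 * t : ℝ) : ℂ)
          = ((∑ g ∈ F, ∑ h ∈ F, ‖⟪b (g⁻¹ * h), p (b 1)⟫_ℂ‖ ^ 2 : ℝ) : ℂ) := by
        have : ((‖∑ g ∈ F, w g‖ ^ 2 : ℝ) : ℂ) = ⟪∑ g ∈ F, w g, ∑ g ∈ F, w g⟫_ℂ := by
          rw [inner_self_eq_norm_sq_to_K]
          push_cast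
          rfl
        rw [Complex.ofReal_mul, this, sum_inner, Finset.sum_mul, Complex.ofReal_sum]
        apply Finset.sum_congr rfl
        intro g _
        rw [inner_sum, Finset.sum_mul, Complex.ofReal_sum]
        apply Finset.sum_congr rfl
        intro h _
        exact hww g h
      have e5 := Complex.ofReal_injective e4
      rw [e5]
      calc ∑ g ∈ F, ∑ h ∈ F, ‖⟪b (g⁻¹ * h), p (b 1)⟫_ℂ‖ ^ 2 ≤ ∑ g ∈ F, t := by
            apply Finset.sum_le_sum
            intro g _
            have hinj : Function.Injective (fun h : G => g⁻¹ * h) := mul_right_injective _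
            have hs2 : Summable (fun h : G => ‖⟪b (g⁻¹ * h), p (b 1)⟫_ℂ‖ ^ 2) :=
              hsum.comp_injective hinj
            have hs3 : ∑' h : G, ‖⟪b (g⁻¹ * h), p (b 1)⟫_ℂ‖ ^ 2
                = ∑' h : G, ‖⟪b h, p (b 1)⟫_ℂ‖ ^ 2 :=
              (Equiv.mulLeft g⁻¹).tsum_eq (fun h : G => ‖⟪b h, p (b 1)⟫_ℂ‖ ^ 2)
            exact ((hs2.sum_le_tsum F (fun _ _ => by positivity)).trans hs3.le).trans htsum
        _ = F.card * t := by rw [Finset.sum_const, nsmul_eq_mul]
    have e6 : ‖∑ g ∈ F, w g‖ ^ 2 ≤ F.card := le_of_mul_le_mul_right e3 ht0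
    calc (F.card : ℝ) ^ 2 * t ^ 2 = (F.card * t) ^ 2 := by ring
      _ ≤ ‖∑ g ∈ F, w g‖ ^ 2 := by gcongr
      _ ≤ F.card := e6
  haveI : Infinite G := inferInstance
  obtain ⟨n, hn⟩ := exists_nat_gt (1 / t ^ 2)
  obtain ⟨F, hFn⟩ := Infinite.exists_subset_card_eq G n
  have := hF F
  rw [hFn] at this
  have hn0 : (0 : ℝ) < n := lt_trans (by positivity) hn
  have h1 : (n : ℝ) * t ^ 2 ≤ 1 := by
    have : (n : ℝ) * (n * t ^ 2) ≤ n * 1 := by linarith
    exact le_of_mul_le_mul_left this hn0
  have h2 : 1 < (n : ℝ) * t ^ 2 := by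
    rwa [div_lt_iff₀ (by positivity)] at hn
  linarith

end main

theorem t_fac : St_fac := by
  intro H _ _ _ b lam hl
  exact
    { bicommutant := Set.centralizer_centralizer_centralizer _
      star_mem := fun x hx => Set.star_mem_centralizer' (star_cent hl) hx
      factor := fun x hx hx' => fac_factor hl x hx hx'
      finite := fun v hv h => fac_finite v (RC_of_mem hl hv) h
      no_minimal := fun p hp hpp hp0 => fac_min hl p hp hpp hp0 }

end Pool.Agent.K3h49.TF
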