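import Pool.Agent.K3h73.TF.Stm

/-!
Brick SCHUR of the project TRACE (owner helper73): Schur's lemma by functional calculus.
-/

set_option autoImplicit false

namespace Pool.Agent.K3h49.TF

open scoped InnerProductSpace ComplexConjugate Topology
open Pool.Agent.K3h73.TF

section
variable {H : Type} [NormedAddCommGroup H] [InnerProductSpace ℂ H] [CompleteSpace H]

/-- for a selfadjoint operator one can move it over the inner product -/
theorem sa_inner {T : H →L[ℂ] H} (hT : star T = T) (v w : H) : ⟪T v, w⟫_ℂ = ⟪v, T w⟫_ℂ := by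
  have h := ContinuousLinearMap.adjoint_inner_left T w v
  rw [← ContinuousLinearMap.star_eq_adjoint, hT] at h
  exact h

/-- if `R` is selfadjoint, `R * R * Q = 0` then `R * Q = 0` -/
theorem sq_kill {R Q : H →L[ℂ] H} (hR : star R = R) (h : R * R * Q = 0) : R * Q = 0 := by
  ext v
  have h1 : ⟪R (Q v), R (Q v)⟫_ℂ = 0 := by
    rw [sa_inner hR]
    have h2 : R (R (Q v)) = 0 := by
      have := congrArg (fun T : H →L[ℂ] H => T v) h
      simpa using this
    rw [h2, inner_zero_right]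
  have h3 : R (Q v) = 0 := by simpa using h1
  simpa using h3

theorem dich (S : Set (H →L[ℂ] H)) (P : H →L[ℂ] H)
    (hP1 : star P = P)
    (irr : ∀ L : Submodule ℂ H, IsClosed (L : Set H) → (∀ v ∈ L, P v = v) →
      (∀ s ∈ S, ∀ v ∈ L, s v ∈ L) → L = ⊥ ∨ ∀ v, P v ∈ L)
    (Y : H →L[ℂ] H) (hY : star Y = Y) (hYS : ∀ s ∈ S, Y * s = s * Y)
    (hYP : Y * P = Y) :
    (∀ v, 0 ≤ (⟪v, Y v⟫_ℂ).re) ∨ (∀ v, (⟪v, Y v⟫_ℂ).re ≤ 0) := by
  have hsa : IsSelfAdjoint Y := hY
  have h1 : Y⁺ * Y⁻ = 0 := CFC.posPart_mul_negPart Y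
  have h2 : Y⁻ * Y⁺ = 0 := CFC.negPart_mul_posPart Y
  have h3 : Y⁺ - Y⁻ = Y := CFC.posPart_sub_negPart Y hsa
  have hp0 : 0 ≤ Y⁺ := CFC.posPart_nonneg Y
  have hn0 : 0 ≤ Y⁻ := CFC.negPart_nonneg Y
  have hpsa : star (Y⁺) = Y⁺ := (IsSelfAdjoint.of_nonneg hp0)
  have hnsa : star (Y⁻) = Y⁻ := (IsSelfAdjoint.of_nonneg hn0)
  have hpp : (Y⁺).IsPositive := (ContinuousLinearMap.nonneg_iff_isPositive _).1 hp0
  have hnp : (Y⁻).IsPositive := (ContinuousLinearMap.nonneg_iff_isPositive _).1 hn0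
  have hYQ : Y * (1 - P) = 0 := by rw [mul_sub, mul_one, hYP, sub_self]
  have hpQ : Y⁺ * (1 - P) = 0 := by
    apply sq_kill hpsa
    have : Y⁺ * Y⁺ = Y⁺ * Y := by
      calc Y⁺ * Y⁺ = Y⁺ * (Y⁺ - Y⁻) := by rw [mul_sub, h1, sub_zero]
        _ = Y⁺ * Y := by rw [h3]
    rw [this, mul_assoc, hYQ, mul_zero]
  have hnQ : Y⁻ * (1 - P) = 0 := by
    apply sq_kill hnsa
    have : Y⁻ * Y⁻ = -(Y⁻ * Y) := by
      calc Y⁻ * Y⁻ = -(Y⁻ * (Y⁺ - Y⁻)) := by rw [mul_sub, h2, zero_sub, neg_neg]
        _ = -(Y⁻ * Y) := by rw [h3]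
    rw [this, neg_mul, mul_assoc, hYQ, mul_zero, neg_zero]
  have hPp : P * Y⁺ = Y⁺ := by
    have := congrArg star hpQ
    rw [star_mul, star_sub, star_one, hP1, hpsa, star_zero, sub_mul, one_mul, sub_eq_zero] at this
    exact this.symm
  have hcp : ∀ s ∈ S, Y⁺ * s = s * Y⁺ := by
    intro s hs
    have hc : Commute Y s := hYS s hs
    exact (hc.cfcₙ_real _)
  have hLrange : ∀ v, Y⁺ v ∈ LinearMap.range (Y⁺ : H →L[ℂ] H).toLinearMap := fun v => ⟨v, rfl⟩
  set L : Submodule ℂ H := (LinearMap.range (Y⁺ : H →L[ℂ] H).toLinearMap).topologicalClosure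
    with hL
  have hLc : IsClosed (L : Set H) := Submodule.isClosed_topologicalClosure _
  have hle : LinearMap.range (Y⁺ : H →L[ℂ] H).toLinearMap ≤ L := Submodule.le_topologicalClosure _
  have hLP : ∀ v ∈ L, P v = v := by
    have hcl : IsClosed ((LinearMap.ker ((1 - P : H →L[ℂ] H).toLinearMap) : Submodule ℂ H) :
        Set H) := ContinuousLinearMap.isClosed_ker (1 - P : H →L[ℂ] H)
    have : L ≤ LinearMap.ker ((1 - P : H →L[ℂ] H).toLinearMap) := by
      apply Submodule.topologicalClosure_minimal _ _ hcl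
      rintro _ ⟨v, rfl⟩
      rw [LinearMap.mem_ker]
      have := congrArg (fun T : H →L[ℂ] H => T v) hPp
      simp only [mul_apply_eq_comp] at this
      simp [this]
    intro v hv
    have := this hv
    rw [LinearMap.mem_ker] at this
    simp only [ContinuousLinearMap.coe_coe, sub_apply,
      one_apply_eq_self, sub_eq_zero] at this
    exact this.symm
  have hLS : ∀ s ∈ S, ∀ v ∈ L, s v ∈ L := by
    intro s hs
    have : L ≤ L.comap (s : H →L[ℂ] H).toLinearMap := by
      apply Submodule.topologicalClosure_minimal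
      · rintro _ ⟨v, rfl⟩
        rw [Submodule.mem_comap]
        apply hle
        refine ⟨s v, ?_⟩
        have := congrArg (fun T : H →L[ℂ] H => T v) (hcp s hs)
        simpa using this
      · exact hLc.preimage s.continuous
    intro v hv
    exact this hv
  rcases irr L hLc hLP hLS with hb | hall
  · right
    intro v
    have hv : Y⁺ v = 0 := by
      have : Y⁺ v ∈ L := hle (hLrange v)
      rw [hb] at this
      simpa using this
    have : Y v = -(Y⁻ v) := by
      conv_lhs => rw [← h3]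
      simp [hv]
    rw [this, inner_neg_right, Complex.neg_re, neg_nonpos]
    have := hnp.inner_nonneg_right v
    exact (Complex.nonneg_iff.1 this).1
  · left
    have hnL : ∀ v ∈ L, Y⁻ v = 0 := by
      have hcl : IsClosed ((LinearMap.ker ((Y⁻ : H →L[ℂ] H).toLinearMap) : Submodule ℂ H) :
        Set H) := ContinuousLinearMap.isClosed_ker (Y⁻ : H →L[ℂ] H)
      have : L ≤ LinearMap.ker ((Y⁻ : H →L[ℂ] H).toLinearMap) := by
        apply Submodule.topologicalClosure_minimal _ _ hcl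
        rintro _ ⟨v, rfl⟩
        rw [LinearMap.mem_ker]
        exact congrArg (fun T : H →L[ℂ] H => T v) h2
      intro v hv
      exact this hv
    intro v
    have hv : Y⁻ v = 0 := by
      have e1 : Y⁻ (P v) = 0 := hnL _ (hall v)
      have e2 := congrArg (fun T : H →L[ℂ] H => T v) hnQ
      simp only [mul_apply_eq_comp, sub_apply,
        one_apply_eq_self, map_sub, e1, sub_zero, zero_apply] at e2
      exact e2
    have : Y v = Y⁺ v := by
      conv_lhs => rw [← h3]
      simp [hv]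
    rw [this]
    have := hpp.inner_nonneg_right v
    exact (Complex.nonneg_iff.1 this).1

theorem sa_im {T : H →L[ℂ] H} (hT : star T = T) (v : H) : (⟪v, T v⟫_ℂ).im = 0 := by
  have h := sa_inner hT v v
  rw [← inner_conj_symm] at h
  exact Complex.conj_eq_iff_im.1 h

theorem schur_sa (S : Set (H →L[ℂ] H)) (P : H →L[ℂ] H)
    (hP1 : star P = P) (hP2 : P * P = P) (hPS : ∀ s ∈ S, P * s = s * P)
    (irr : ∀ L : Submodule ℂ H, IsClosed (L : Set H) → (∀ v ∈ L, P v = v) →
      (∀ s ∈ S, ∀ v ∈ L, s v ∈ L) → L = ⊥ ∨ ∀ v, P v ∈ L)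
    (X : H →L[ℂ] H) (hX : star X = X) (hXS : ∀ s ∈ S, X * s = s * X)
    (hPXP : P * X * P = X) : ∃ c : ℂ, X = c • P := by
  have hXP : X * P = X := by
    conv_lhs => rw [← hPXP]
    rw [mul_assoc, hP2, hPXP]
  have hPX : P * X = X := by
    conv_lhs => rw [← hPXP]
    rw [← mul_assoc, ← mul_assoc, hP2, hPXP]
  have hPP : ∀ v, P (P v) = P v := fun v => by
    have := congrArg (fun T : H →L[ℂ] H => T v) hP2
    simpa using this
  have hPform : ∀ v, ⟪v, P v⟫_ℂ = ((‖P v‖ ^ 2 : ℝ) : ℂ) := by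
    intro v
    rw [← hPP v, ← sa_inner hP1, inner_self_eq_norm_sq_to_K, hPP v]
    push_cast
    rfl
  by_cases hP0 : P = 0
  · refine ⟨0, ?_⟩
    rw [← hPXP, hP0]; simp
  obtain ⟨v₀, hv₀⟩ : ∃ v₀, P v₀ ≠ 0 := by
    by_contra hcon
    push Not at hcon
    exact hP0 (ContinuousLinearMap.ext fun v => by simpa using hcon v)
  have hXform : ∀ v, ⟪v, X v⟫_ℂ = ⟪P v, X (P v)⟫_ℂ := by
    intro v
    have e1 : X (P v) = X v := by
      have := congrArg (fun T : H →L[ℂ] H => T v) hXP
      simpa using this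
    have e2 : P (X v) = X v := by
      have := congrArg (fun T : H →L[ℂ] H => T v) hPX
      simpa using this
    rw [e1, sa_inner hP1, e2]
  have hbd : ∀ v, |(⟪v, X v⟫_ℂ).re| ≤ ‖X‖ * ‖P v‖ ^ 2 := by
    intro v
    rw [hXform]
    calc |(⟪P v, X (P v)⟫_ℂ).re| ≤ ‖⟪P v, X (P v)⟫_ℂ‖ := Complex.abs_re_le_norm _
      _ ≤ ‖P v‖ * ‖X (P v)‖ := norm_inner_le_norm _ _
      _ ≤ ‖P v‖ * (‖X‖ * ‖P v‖) := by gcongr; exact X.le_opNorm _
      _ = _ := by ring
  let A : Set ℝ := {μ | ∀ v, μ * ‖P v‖ ^ 2 ≤ (⟪v, X v⟫_ℂ).re}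
  have hA0 : -‖X‖ ∈ A := by
    intro v
    have := (abs_le.1 (hbd v)).1
    linarith
  have hAb : BddAbove A := by
    refine ⟨‖X‖, ?_⟩
    intro μ hμ
    have h1 := hμ v₀
    have h2 := (abs_le.1 (hbd v₀)).2
    have h3 : 0 < ‖P v₀‖ ^ 2 := by positivity
    exact le_of_mul_le_mul_right (h1.trans h2) h3
  set μ₀ := sSup A with hμ₀
  have hmem : ∀ v, μ₀ * ‖P v‖ ^ 2 ≤ (⟪v, X v⟫_ℂ).re := by
    intro v
    rcases eq_or_ne (P v) 0 with hv | hv
    · have := hA0 v
      rw [hv] at this ⊢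
      simpa using this
    · have h3 : 0 < ‖P v‖ ^ 2 := by positivity
      rw [← le_div_iff₀ h3]
      apply csSup_le ⟨_, hA0⟩
      intro μ hμ
      rw [le_div_iff₀ h3]
      exact hμ v
  have hup : ∀ v, (⟪v, X v⟫_ℂ).re ≤ μ₀ * ‖P v‖ ^ 2 := by
    intro v
    have key : ∀ μ, μ₀ < μ → (⟪v, X v⟫_ℂ).re ≤ μ * ‖P v‖ ^ 2 := by
      intro μ hμ
      have hY : star (X - (μ : ℂ) • P) = X - (μ : ℂ) • P := by
        rw [star_sub, hX, star_smul, hP1]
        simp
      have hYform : ∀ w, (⟪w, (X - (μ : ℂ) • P) w⟫_ℂ).re = (⟪w, X w⟫_ℂ).re - μ * ‖P w‖ ^ 2 := by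
        intro w
        rw [sub_apply, inner_sub_right, smul_apply,
          inner_smul_right, hPform, Complex.sub_re, ← Complex.ofReal_mul, Complex.ofReal_re]
      rcases dich S P hP1 irr (X - (μ : ℂ) • P) hY (fun s hs => by
        rw [sub_mul, mul_sub, hXS s hs, smul_mul_assoc, hPS s hs, mul_smul_comm])
        (by rw [sub_mul, hXP, smul_mul_assoc, hP2]) with h | h
      · exfalso
        have : μ ∈ A := by
          intro w
          have := h w
          rw [hYform] at this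
          linarith
        exact absurd (le_csSup hAb this) (not_le.2 hμ)
      · have := h v
        rw [hYform] at this
        linarith
    rcases eq_or_ne (P v) 0 with hv | hv
    · have := key (μ₀ + 1) (by linarith)
      rw [hv] at this ⊢
      simpa using this
    · have h3 : 0 < ‖P v‖ ^ 2 := by positivity
      rw [← div_le_iff₀ h3]
      apply le_of_forall_gt_imp_ge_of_dense
      intro μ hμ
      rw [div_le_iff₀ h3]
      exact key μ hμ
  refine ⟨(μ₀ : ℂ), ?_⟩
  have hz : X - (μ₀ : ℂ) • P = 0 := by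
    have hsaz : star (X - (μ₀ : ℂ) • P) = X - (μ₀ : ℂ) • P := by
      rw [star_sub, hX, star_smul, hP1]
      simp
    have : (X - (μ₀ : ℂ) • P).toLinearMap = 0 := by
      rw [← inner_map_self_eq_zero]
      intro v
      show ⟪(X - (μ₀ : ℂ) • P) v, v⟫_ℂ = 0
      rw [sa_inner hsaz]
      apply Complex.ext
      · rw [sub_apply, inner_sub_right, smul_apply,
          inner_smul_right, hPform, Complex.sub_re, ← Complex.ofReal_mul, Complex.ofReal_re,
          Complex.zero_re]
        linarith [hup v, hmem v]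
      · exact sa_im hsaz v
    ext v
    have := congrArg (fun T : H →ₗ[ℂ] H => T v) this
    simpa using this
  rwa [sub_eq_zero] at hz

end

theorem t_schur : St_schur := by
  intro H _ _ _ S P hS hP1 hP2 hPS irr X hXS hPXP
  have hXsS : ∀ s ∈ S, star X * s = s * star X := by
    intro s hs
    have := congrArg star (hXS (star s) (hS s hs))
    rw [star_mul, star_mul, star_star] at this
    exact this.symm
  have hXsP : P * star X * P = star X := by
    have := congrArg star hPXP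
    rw [star_mul, star_mul, hP1, ← mul_assoc] at this
    exact this
  obtain ⟨a, ha⟩ := schur_sa S P hP1 hP2 hPS irr (X + star X) (by rw [star_add, star_star, add_comm])
    (fun s hs => by rw [add_mul, mul_add, hXS s hs, hXsS s hs])
    (by rw [mul_add, add_mul, hPXP, hXsP])
  obtain ⟨b, hb⟩ := schur_sa S P hP1 hP2 hPS irr (Complex.I • (X - star X))
    (by rw [star_smul, star_sub, star_star]
        simp only [RCLike.star_def, Complex.conj_I]
        rw [neg_smul, ← smul_neg, neg_sub])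
    (fun s hs => by rw [smul_mul_assoc, mul_smul_comm, sub_mul, mul_sub, hXS s hs, hXsS s hs])
    (by rw [mul_smul_comm, smul_mul_assoc, mul_sub, sub_mul, hPXP, hXsP])
  refine ⟨(1 / 2 : ℂ) * a - (Complex.I / 2) * b, ?_⟩
  have hb' : X - star X = -(Complex.I • b • P) := by
    rw [← hb, smul_smul, Complex.I_mul_I, neg_smul, one_smul, neg_neg]
  have : X = (1 / 2 : ℂ) • ((X + star X) + (X - star X)) := by
    have : (X + star X) + (X - star X) = (2 : ℂ) • X := by
      rw [two_smul]; abel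
    rw [this, smul_smul]; norm_num
  rw [this, ha, hb', sub_smul, smul_add, smul_neg, smul_smul, smul_smul, smul_smul, ← sub_eq_add_neg]
  congr 2
  ring

end Pool.Agent.K3h49.TF
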